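import Pool.Agent.Z894.CP.Stm2

/-!
Project MB (owner helper894), part 1: valuation rings of residue characteristic `p` with independent
residues. The construction is that of Pool/Agent/Y417/CP/Spec.lean (helper417).
-/

set_option autoImplicit false

open MvPolynomial

namespace Pool.Agent.Y405.MB

/-- Specialisation along a surjection from a polynomial ring over `ℤ`. -/
theorem exists_val {K : Type} [Field K] {τ R : Type} [CommRing R] [IsDomain R] (v : τ → K)
    (hv : AlgebraicIndependent ℤ v) (ρ : MvPolynomial τ ℤ →+* R) (hρ : Function.Surjective ρ) :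
    ∃ (B : ValuationSubring K) (φ : R →+* IsLocalRing.ResidueField B), Function.Injective φ ∧
      ∀ u : MvPolynomial τ ℤ, ∃ h : aeval v u ∈ B,
        IsLocalRing.residue B ⟨aeval v u, h⟩ = φ (ρ u) := by
  classical
  let P : Ideal (MvPolynomial τ ℤ) := RingHom.ker ρ
  have hP : P.IsPrime := RingHom.ker_isPrime ρ
  let ev : MvPolynomial τ ℤ →+* K := (aeval v : MvPolynomial τ ℤ →ₐ[ℤ] K)
  have hev : Function.Injective ev := hv
  have hunit : ∀ y : P.primeCompl, IsUnit (ev y) := by
    rintro ⟨y, hy⟩
    rw [isUnit_iff_ne_zero]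
    intro h0
    apply hy
    have : y = 0 := hev (h0.trans (map_zero ev).symm)
    rw [this]
    exact P.zero_mem
  let f : Localization.AtPrime P →+* K := IsLocalization.lift (M := P.primeCompl) hunit
  have hf : ∀ u, f (algebraMap _ _ u) = ev u := fun u => IsLocalization.lift_eq hunit u
  obtain ⟨B, h, hloc⟩ := IsLocalRing.exists_factor_valuationRing f
  let g : MvPolynomial τ ℤ →+* B :=
    (f.codRestrict B.toSubring h).comp (algebraMap _ (Localization.AtPrime P))
  have hg : ∀ u, ((g u : B) : K) = ev u := hf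
  let π : MvPolynomial τ ℤ →+* IsLocalRing.ResidueField B := (IsLocalRing.residue B).comp g
  have hπ : ∀ u, π u = 0 ↔ ρ u = 0 := by
    intro u
    have h1 : π u = 0 ↔ g u ∈ IsLocalRing.maximalIdeal B := IsLocalRing.residue_eq_zero_iff _
    rw [h1, IsLocalRing.mem_maximalIdeal, mem_nonunits_iff]
    have h2 : IsUnit (g u) ↔ IsUnit (algebraMap _ (Localization.AtPrime P) u) :=
      isUnit_map_iff (f.codRestrict B.toSubring h) _
    rw [h2, IsLocalization.AtPrime.isUnit_to_map_iff _ P]
    change ¬ (u ∉ P) ↔ _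
    rw [not_not]
    exact RingHom.mem_ker
  have hker : RingHom.ker ρ ≤ RingHom.ker π := fun u hu => (hπ u).2 hu
  let φ : R →+* IsLocalRing.ResidueField B := ρ.liftOfSurjective hρ ⟨π, hker⟩
  have hφ : ∀ u, φ (ρ u) = π u := fun u => RingHom.liftOfSurjective_comp_apply ρ hρ ⟨π, hker⟩ u
  refine ⟨B, φ, ?_, ?_⟩
  · rw [injective_iff_map_eq_zero]
    intro a ha
    obtain ⟨u, rfl⟩ := hρ a
    rw [hφ] at ha
    exact (hπ u).1 ha
  · intro u
    have h1 : aeval v u = ((g u : B) : K) := (hg u).symm
    refine ⟨h1 ▸ (g u).2, ?_⟩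
    rw [hφ]
    change _ = IsLocalRing.residue B (g u)
    congr 1
    exact Subtype.ext h1

theorem val_holds : Pool.Agent.Z894.CP.MVal := by
  intro K _ _ p _ ι _ c hc
  have hc' : AlgebraicIndependent ℤ c := hc.restrictScalars (Int.cast_injective)
  exact exists_val c hc' (MvPolynomial.map (Int.castRingHom (ZMod p)))
    (MvPolynomial.map_surjective _ ZMod.intCast_surjective)

end Pool.Agent.Y405.MB
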